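import Pool.Agent.H322R2.ME

open Polynomial

namespace Pool.Agent.Results.MP_0c2c5b_nt.LargeTau

/-- `H(P)`: the maximum of the absolute values of the coefficients of `P`. -/
def height (P : ℤ[X]) : ℕ := P.support.sup fun i => (P.coeff i).natAbs

/-- `P` is a minimal polynomial over `ℤ` of the real number `α` (unique up to sign): it is
irreducible in `ℤ[X]` (hence primitive) and vanishes at `α`. -/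
def IsIntMinpoly (P : ℤ[X]) (α : ℝ) : Prop := Irreducible P ∧ aeval α P = 0

/-- The real algebraic `α` of degree exactly `n` with `|ξ - α| < Ψ(H(α))`. -/
def Approx (n : ℕ) (Ψ : ℝ → ℝ) (ξ : ℝ) : Set ℝ :=
  {α | ∃ P : ℤ[X], IsIntMinpoly P α ∧ P.natDegree = n ∧ |ξ - α| < Ψ (height P)}

/-- The real algebraic `α` of degree at most `n` with `|ξ - α| < Ψ(H(α))`. -/
def ApproxLe (n : ℕ) (Ψ : ℝ → ℝ) (ξ : ℝ) : Set ℝ :=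
  {α | ∃ P : ℤ[X], IsIntMinpoly P α ∧ P.natDegree ≤ n ∧ |ξ - α| < Ψ (height P)}

/-- `𝒦_n^*(Ψ)`. -/
def KStar (n : ℕ) (Ψ : ℝ → ℝ) : Set ℝ := {ξ | (ApproxLe n Ψ ξ).Infinite}

theorem gen (n : ℕ) (hn : 1 ≤ n) (ψ₁ ψ₂ : ℝ → ℝ) (s δ x₀ : ℝ) (hδ : 0 ≤ δ)
    (hs : 2 * (n : ℝ) * (1 + δ) ^ 2 < s)
    (hψ : ∀ x, x₀ ≤ x → 0 < ψ₁ x ∧ ψ₁ x ≤ x ^ (-s) ∧ ψ₁ x + (ψ₁ x) ^ (1 + δ) ≤ ψ₂ x) :
    (∃ ξ : ℝ, (Approx n ψ₂ ξ).Infinite ∧ (Approx n ψ₁ ξ).Finite) ∧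
    (KStar n ψ₂ \ KStar n ψ₁).Nonempty := by
  constructor
  · obtain ⟨ξ, h1, h2⟩ := H322R2.m_general n hn (fun d => d = n) (fun d hd => hd.le) rfl
      ψ₁ ψ₂ s δ x₀ hδ hs (fun x hx => (hψ x hx).1) (fun x hx => (hψ x hx).2.1)
      (fun x hx => (hψ x hx).2.2)
    have key : ∀ ψ : ℝ → ℝ, Approx n ψ ξ = {α : ℝ | ∃ P : ℤ[X], Irreducible P ∧ aeval α P = 0 ∧
        P.natDegree = n ∧ |ξ - α| < ψ (H322R2.mht P)} := by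
      intro ψ
      ext α
      constructor
      · rintro ⟨P, ⟨h1, h2⟩, h3, h4⟩
        exact ⟨P, h1, h2, h3, h4⟩
      · rintro ⟨P, h1, h2, h3, h4⟩
        exact ⟨P, ⟨h1, h2⟩, h3, h4⟩
    rw [← key] at h1 h2
    exact ⟨ξ, h1, h2⟩
  · obtain ⟨ξ, h1, h2⟩ := H322R2.m_general n hn (fun d => d ≤ n) (fun d hd => hd) le_rfl
      ψ₁ ψ₂ s δ x₀ hδ hs (fun x hx => (hψ x hx).1) (fun x hx => (hψ x hx).2.1)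
      (fun x hx => (hψ x hx).2.2)
    have key : ∀ ψ : ℝ → ℝ, ApproxLe n ψ ξ = {α : ℝ | ∃ P : ℤ[X], Irreducible P ∧
        aeval α P = 0 ∧ P.natDegree ≤ n ∧ |ξ - α| < ψ (H322R2.mht P)} := by
      intro ψ
      ext α
      constructor
      · rintro ⟨P, ⟨h1, h2⟩, h3, h4⟩
        exact ⟨P, h1, h2, h3, h4⟩
      · rintro ⟨P, h1, h2, h3, h4⟩
        exact ⟨P, ⟨h1, h2⟩, h3, h4⟩
    rw [← key] at h1 h2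
    exact ⟨ξ, h1, fun hinf => hinf h2⟩

/-- The general question has a positive answer for all pairs of functions `Ψ₁ < Ψ₂` such that `Ψ₁`
decays faster than `x^{-2n}` by a power and `Ψ₂ - Ψ₁ ≥ Ψ₁^{1+δ}`. -/
theorem result :
    ∀ n : ℕ, 1 ≤ n → ∀ Ψ₁ Ψ₂ : ℝ → ℝ, ∀ s δ x₀ : ℝ, 0 ≤ δ →
      2 * (n : ℝ) * (1 + δ) ^ 2 < s →
      (∀ x, x₀ ≤ x → 0 < Ψ₁ x ∧ Ψ₁ x ≤ x ^ (-s) ∧ Ψ₁ x + (Ψ₁ x) ^ (1 + δ) ≤ Ψ₂ x) →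
      (∃ ξ : ℝ, (Approx n Ψ₂ ξ).Infinite ∧ (Approx n Ψ₁ ξ).Finite) ∧
      (KStar n Ψ₂ \ KStar n Ψ₁).Nonempty :=
  fun n hn Ψ₁ Ψ₂ s δ x₀ hδ hs hψ => gen n hn Ψ₁ Ψ₂ s δ x₀ hδ hs hψ

end Pool.Agent.Results.MP_0c2c5b_nt.LargeTau
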